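import Pool.Agent.H66.AV.TF

/-!
# Row RCT of the board `avh_modules`: if the test function is small, the protocols are not right
too often
-/

set_option autoImplicit false

namespace Pool.Agent.H20.AVH

open Finset Pool.Agent.H70.OQ Pool.Agent.H70.EH Pool.Agent.H70.EI
open Pool.Agent.H78.XQ Pool.Agent.H66.IQ Pool.Agent.H66.AV

/-- values are between `0` and `1` -/
theorem val_bd {k : ℕ} (O : List Bool → Bool) (G : Prot k) : 0 ≤ G.val O ∧ G.val O ≤ 1 := by
  induction G with
  | test T =>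
    unfold Prot.val
    split_ifs
    · exact ⟨zero_le_one, le_refl _⟩
    · exact ⟨le_refl _, zero_le_one⟩
  | coin l r hl hr =>
    unfold Prot.val
    constructor
    · linarith [hl.1, hr.1]
    · linarith [hl.2, hr.2]
  | say l r hl hr =>
    unfold Prot.val
    exact ⟨hl.1.trans (le_max_left _ _), max_le hl.2 hr.2⟩

theorem pf_RCT : T_RCT := by
  intro n k G A C a B ε hε hB hA hC hB1 Q z hmem htst
  obtain ⟨d, hd⟩ : ∃ d : ℝ, d = (1 / 2) ^ a := ⟨_, rfl⟩
  rw [← hd] at hB
  simp only [← hd] at hA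
  have hd0 : 0 < d := by
    rw [hd]
    positivity
  have hd1 : d ≤ 1 := by
    rw [hd]
    exact pow_le_one₀ (by norm_num) (by norm_num)
  have hB1R : (1 : ℝ) ≤ B := by exact_mod_cast hB1
  have hBd : d ≤ B * d := by
    calc d = 1 * d := (one_mul d).symm
      _ ≤ B * d := mul_le_mul_of_nonneg_right hB1R hd0.le
  have hv0 : ∀ x, 0 ≤ v0 A Q z x ∧ v0 A Q z x ≤ 1 := fun x => val_bd _ (A x)
  have hv1 : ∀ x, 0 ≤ v1 C Q z x ∧ v1 C Q z x ≤ 1 := fun x => val_bd _ (C x)
  have key : ∀ (x : Fin n → Bool) (c : ℝ), (c = 0 ∨ (c = 1 ∧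
      (G (List.ofFn x)).Proves (Q (tbl z)) (List.ofFn x ∉ alang k (Q (tbl z))))) →
      c ≤ 1 / 2 + sg (z x).1 * (v0 A Q z x - 1 / 2) +
        (if (z x).1 then v0 A Q z x * (1 - v1 C Q z x) else 0) + B * d := by
    intro x c hc
    obtain ⟨h1, h2⟩ := hv0 x
    obtain ⟨h3, h4⟩ := hv1 x
    cases hb : (z x).1 with
    | false =>
      have hz : zer z x = z := by
        unfold zer
        have h5 : (false, (z x).2) = z x := by rw [← hb]
        rw [h5, Function.update_eq_self]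
      have hv : v0 A Q z x = (A x).val (Q (tbl z)) := by
        unfold v0
        rw [hz]
      have hnm : List.ofFn x ∉ alang k (Q (tbl z)) := by
        rw [hmem x, hb]
        exact Bool.false_ne_true
      have hsg : sg false = 1 := rfl
      rw [hsg, if_neg Bool.false_ne_true]
      rcases hc with hc | ⟨hc, hp⟩
      · rw [hc]
        linarith
      · have h6 := (hA x (Q (tbl z))).1 (hp.1 hnm)
        rw [← hv] at h6
        rw [hc]
        linarith
    | true =>
      have hm : List.ofFn x ∈ alang k (Q (tbl z)) := (hmem x).2 hb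
      have hsg : sg true = -1 := rfl
      rw [hsg, if_pos rfl]
      have h5 : v0 A Q z x * v1 C Q z x ≤ v1 C Q z x := by
        calc v0 A Q z x * v1 C Q z x ≤ 1 * v1 C Q z x := mul_le_mul_of_nonneg_right h2 h3
          _ = v1 C Q z x := one_mul _
      have h6 : 1 / 2 + -1 * (v0 A Q z x - 1 / 2) + v0 A Q z x * (1 - v1 C Q z x) + B * d =
          1 - v0 A Q z x * v1 C Q z x + B * d := by ring
      rw [h6]
      rcases hc with hc | ⟨hc, hp⟩
      · rw [hc]
        linarith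
      · have h7 := (hA x (Q (tbl z))).2 (hp.2 (not_not.2 hm))
        have h8 : 1 - v1 C Q z x = (1 - (A x).val (Q (tbl z))) ^ B := hC x _
        have h9 : (1 - d) ^ B ≤ (1 - (A x).val (Q (tbl z))) ^ B :=
          pow_le_pow_left₀ (by linarith) (by linarith) B
        have h10 : 1 + (B : ℝ) * (-d) ≤ (1 + -d) ^ B := one_add_mul_le_pow (by linarith) B
        have h11 : (1 + -d) ^ B = (1 - d) ^ B := by rw [sub_eq_add_neg]
        rw [hc]
        linarith
  have hcard : Fintype.card (Fin n → Bool) = 2 ^ n := by simp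
  have hsum : (rights G (Q (tbl z)) n : ℝ) ≤
      ∑ x : Fin n → Bool, (1 / 2 + sg (z x).1 * (v0 A Q z x - 1 / 2) +
        (if (z x).1 then v0 A Q z x * (1 - v1 C Q z x) else 0) + B * d) := by
    unfold rights
    rw [Finset.card_filter, Nat.cast_sum]
    refine Finset.sum_le_sum fun x _ => key x _ ?_
    split_ifs with h
    · exact Or.inr ⟨Nat.cast_one, h⟩
    · exact Or.inl Nat.cast_zero
  have hsum2 : ∑ x : Fin n → Bool, (1 / 2 + sg (z x).1 * (v0 A Q z x - 1 / 2) +
        (if (z x).1 then v0 A Q z x * (1 - v1 C Q z x) else 0) + B * d) =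
      2 ^ n * (1 / 2) + s0 A Q z + s1 A C Q z + 2 ^ n * (B * d) := by
    rw [sum_add_distrib, sum_add_distrib, sum_add_distrib, sum_const, sum_const, card_univ,
      hcard, nsmul_eq_mul, nsmul_eq_mul, Nat.cast_pow, Nat.cast_ofNat]
    rfl
  have hs1 : 0 ≤ s1 A C Q z := by
    unfold s1
    refine Finset.sum_nonneg fun x _ => ?_
    split_ifs
    · exact mul_nonneg (hv0 x).1 (by linarith [(hv1 x).2])
    · exact le_refl _
  have h2n : (0 : ℝ) < 2 ^ n := by positivity
  by_contra hcon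
  push Not at hcon
  have h12 : (2 : ℝ) ^ n * (B * d) ≤ 2 ^ n * (ε / 4) := mul_le_mul_of_nonneg_left hB h2n.le
  have h13 : 3 / 4 * (ε * 2 ^ n) < s0 A Q z + s1 A C Q z := by
    rw [hsum2] at hsum
    linarith
  have h4n : (4 : ℝ) ^ n = 2 ^ n * 2 ^ n := by
    rw [← mul_pow]
    norm_num
  have hεn : 0 < ε * 2 ^ n := mul_pos hε h2n
  have htst' : 16 / (ε ^ 2 * 4 ^ n) * s0 A Q z ^ 2 + 2 / (ε * 2 ^ n) * s1 A C Q z < 1 := htst
  have h16 : 16 / (ε ^ 2 * 4 ^ n) = 16 / ((ε * 2 ^ n) * (ε * 2 ^ n)) := by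
    rw [h4n]
    congr 1
    ring
  rw [h16] at htst'
  by_cases h : ε * 2 ^ n / 4 < s0 A Q z
  · have h14 : (ε * 2 ^ n / 4) ^ 2 < s0 A Q z ^ 2 :=
      pow_lt_pow_left₀ h (by positivity) (by norm_num)
    have h15 : 1 < 16 / ((ε * 2 ^ n) * (ε * 2 ^ n)) * s0 A Q z ^ 2 := by
      calc 1 = 16 / ((ε * 2 ^ n) * (ε * 2 ^ n)) * (ε * 2 ^ n / 4) ^ 2 := by
            field_simp
            norm_num
        _ < 16 / ((ε * 2 ^ n) * (ε * 2 ^ n)) * s0 A Q z ^ 2 :=
            mul_lt_mul_of_pos_left h14 (by positivity)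
    have h17 : 0 ≤ 2 / (ε * 2 ^ n) * s1 A C Q z := mul_nonneg (by positivity) hs1
    linarith
  · have h18 : ε * 2 ^ n / 2 < s1 A C Q z := by linarith
    have h19 : 1 < 2 / (ε * 2 ^ n) * s1 A C Q z := by
      calc 1 = 2 / (ε * 2 ^ n) * (ε * 2 ^ n / 2) := by
            field_simp
        _ < 2 / (ε * 2 ^ n) * s1 A C Q z := mul_lt_mul_of_pos_left h18 (by positivity)
    have h20 : 0 ≤ 16 / ((ε * 2 ^ n) * (ε * 2 ^ n)) * s0 A Q z ^ 2 := by positivity
    linarith

end Pool.Agent.H20.AVH
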